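import Mathlib
import Pool.Agent.H97R2.BP.Defs
import Pool.Agent.H97R2.BP.Defs2

/-! The linear Radon-Nikodym theorem (task RNN). -/

open scoped ComplexOrder InnerProductSpace ComplexConjugate TensorProduct
open Finset H759R2.Kad H710R2.DP

noncomputable section

namespace H97R2.BP.ZZ403

variable {K : Type} [NormedAddCommGroup K] [InnerProductSpace ℂ K] [CompleteSpace K]

lemma pis_norm {V : K →L[ℂ] K} (hv : V * star V * V = V) : ‖V‖ ≤ 1 := by
  have h1 : ‖star V * V‖ = ‖V‖ * ‖V‖ := CStarRing.norm_star_mul_self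
  have h2 : star (star V * V) * (star V * V) = star V * V := by
    rw [star_mul, star_star]
    calc star V * V * (star V * V) = star V * (V * star V * V) := by noncomm_ring
      _ = star V * V := by rw [hv]
  have h3 : ‖star (star V * V) * (star V * V)‖ = ‖star V * V‖ * ‖star V * V‖ :=
    CStarRing.norm_star_mul_self
  rw [h2, h1] at h3
  by_contra hcon
  push Not at hcon
  have h4 : 1 < ‖V‖ * ‖V‖ := by nlinarith [norm_nonneg V]
  nlinarith

lemma ip_star (X : K →L[ℂ] K) (ξ η : K) : ⟪ξ, star X η⟫_ℂ = ⟪X ξ, η⟫_ℂ := by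
  rw [ContinuousLinearMap.star_eq_adjoint, ContinuousLinearMap.adjoint_inner_right]

lemma ip_star' (X : K →L[ℂ] K) (ξ η : K) : ⟪star X ξ, η⟫_ℂ = ⟪ξ, X η⟫_ℂ := by
  rw [ContinuousLinearMap.star_eq_adjoint, ContinuousLinearMap.adjoint_inner_left]

/-- the pointwise claim -/
lemma claim (h : C_polar.{0}) (N : VonNeumannAlgebra K) (Ω : K) (x' : K →L[ℂ] K)
    (hx' : x' ∈ N.commutant) (l m : ℝ) (hl : 0 < l) (hm : 0 < m) (y : K →L[ℂ] K) (hy : y ∈ N) :
    ∃ X ∈ N, ‖X‖ ≤ ‖x'‖ / (2 * √(l * m)) ∧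
      ‖⟪Ω, y (x' Ω)⟫_ℂ‖ ≤ ((l : ℂ) * ⟪Ω, X (y Ω)⟫_ℂ + (m : ℂ) * ⟪Ω, y (X Ω)⟫_ℂ).re := by
  obtain ⟨v, b, hv, ⟨z, hz⟩, -, hyvb, hvb, -⟩ := h K N ⟨y, hy⟩
  set V : K →L[ℂ] K := (v : K →L[ℂ] K) with hVdef
  set B : K →L[ℂ] K := (b : K →L[ℂ] K) with hBdef
  set Z : K →L[ℂ] K := (z : K →L[ℂ] K) with hZdef
  have hVN : V ∈ N := v.2
  have hZN : Z ∈ N := z.2
  have hV : V * star V * V = V := congrArg Subtype.val hv
  have hB : B = star Z * Z := congrArg Subtype.val hz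
  have hyVB : y = V * B := congrArg Subtype.val hyvb
  have hVVB : star V * V * B = B := congrArg Subtype.val hvb
  have hVn := pis_norm hV
  have hcom : ∀ ξ, Z (x' ξ) = x' (Z ξ) := by
    intro ξ
    have := (VonNeumannAlgebra.mem_commutant_iff.mp hx') Z hZN
    exact congrArg (fun T : K →L[ℂ] K => T ξ) this
  have hlm : 0 < √(l * m) := Real.sqrt_pos.mpr (mul_pos hl hm)
  set c : ℝ := ‖x'‖ / (2 * √(l * m)) with hc
  have hc0 : 0 ≤ c := by positivity
  refine ⟨(c : ℂ) • star V, ?_, ?_, ?_⟩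
  · exact N.toStarSubalgebra.smul_mem (star_mem hVN) _
  · rw [norm_smul, Complex.norm_real, Real.norm_of_nonneg hc0, norm_star]
    exact mul_le_of_le_one_right hc0 hVn
  · have e1 : ⟪Ω, ((c : ℂ) • star V) (y Ω)⟫_ℂ = ((c * ‖Z Ω‖ ^ 2 : ℝ) : ℂ) := by
      have : ((c : ℂ) • star V) (y Ω) = (c : ℂ) • (star Z (Z Ω)) := by
        have h1 : star V (y Ω) = B Ω := by
          conv_rhs => rw [← hVVB]
          rw [hyVB]
          rfl
        show (c : ℂ) • (star V (y Ω)) = _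
        rw [h1, hB]
        rfl
      rw [this, inner_smul_right, ip_star, inner_self_eq_norm_sq_to_K]
      push_cast
      rfl
    have e2 : ⟪Ω, y (((c : ℂ) • star V) Ω)⟫_ℂ = ((c * ‖Z (star V Ω)‖ ^ 2 : ℝ) : ℂ) := by
      have : y (((c : ℂ) • star V) Ω) = (c : ℂ) • (V (star Z (Z (star V Ω)))) := by
        show y ((c : ℂ) • (star V Ω)) = _
        rw [map_smul, hyVB, hB]
        rfl
      rw [this, inner_smul_right, ← ip_star', ip_star, inner_self_eq_norm_sq_to_K]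
      push_cast
      rfl
    have e3 : ‖⟪Ω, y (x' Ω)⟫_ℂ‖ ≤ ‖Z (star V Ω)‖ * (‖x'‖ * ‖Z Ω‖) := by
      have : ⟪Ω, y (x' Ω)⟫_ℂ = ⟪Z (star V Ω), x' (Z Ω)⟫_ℂ := by
        rw [← hcom, ← ip_star, ip_star']
        congr 1
        rw [hyVB, hB]
        rfl
      rw [this]
      exact (norm_inner_le_norm _ _).trans
        (mul_le_mul_of_nonneg_left (x'.le_opNorm _) (norm_nonneg _))
    refine e3.trans ?_
    rw [e1, e2]
    have e4 : ((l : ℂ) * ((c * ‖Z Ω‖ ^ 2 : ℝ) : ℂ) + (m : ℂ) * ((c * ‖Z (star V Ω)‖ ^ 2 : ℝ) : ℂ)).re =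
        c * (l * ‖Z Ω‖ ^ 2 + m * ‖Z (star V Ω)‖ ^ 2) := by
      rw [← Complex.ofReal_mul, ← Complex.ofReal_mul, ← Complex.ofReal_add, Complex.ofReal_re]
      ring
    rw [e4]
    set α := ‖Z Ω‖
    set β := ‖Z (star V Ω)‖
    have hs : √(l * m) = √l * √m := Real.sqrt_mul hl.le m
    have h5 : 2 * √(l * m) * (α * β) ≤ l * α ^ 2 + m * β ^ 2 := by
      have h6 := sq_nonneg (√l * α - √m * β)
      have h7 : √l ^ 2 = l := Real.sq_sqrt hl.le
      have h8 : √m ^ 2 = m := Real.sq_sqrt hm.le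
      rw [hs]
      nlinarith
    calc β * (‖x'‖ * α) = c * (2 * √(l * m) * (α * β)) := by
          rw [hc]; field_simp
      _ ≤ _ := mul_le_mul_of_nonneg_left h5 hc0

/-- the bilinear form -/
def FF (Ω : K) (l m : ℝ) (y X : K →L[ℂ] K) : ℂ :=
  (l : ℂ) * ⟪Ω, X (y Ω)⟫_ℂ + (m : ℂ) * ⟪Ω, y (X Ω)⟫_ℂ

lemma FF_sum (Ω : K) (l m : ℝ) {ι : Type} [Fintype ι] (c : ι → ℂ) (y : ι → (K →L[ℂ] K))
    (X : K →L[ℂ] K) : FF Ω l m (∑ i, c i • y i) X = ∑ i, c i * FF Ω l m (y i) X := by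
  unfold FF
  simp only [ContinuousLinearMap.sum_apply, ContinuousLinearMap.smul_apply, map_sum, map_smul,
    inner_sum, inner_smul_right, mul_sum, mul_add, sum_add_distrib]
  congr 1
  · exact sum_congr rfl fun i _ => by ring
  · exact sum_congr rfl fun i _ => by ring

lemma FF_conv (Ω : K) (l m : ℝ) (y X X' : K →L[ℂ] K) (a b : ℝ) :
    FF Ω l m y (a • X + b • X') = a • FF Ω l m y X + b • FF Ω l m y X' := by
  unfold FF
  simp only [ContinuousLinearMap.add_apply, ContinuousLinearMap.smul_apply, map_add,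
    inner_add_right, Complex.real_smul, ← Complex.coe_smul, map_smul, inner_smul_right]
  ring

/-- finitely many `y` -/
lemma approx (h : C_polar.{0}) (N : VonNeumannAlgebra K) (Ω : K) (x' : K →L[ℂ] K)
    (hx' : x' ∈ N.commutant) (l m : ℝ) (hl : 0 < l) (hm : 0 < m) (s : Finset N.toStarSubalgebra)
    (ε : ℝ) (hε : 0 < ε) :
    ∃ X ∈ N, ‖X‖ ≤ ‖x'‖ / (2 * √(l * m)) ∧
      ∀ y ∈ s, ‖⟪Ω, (y : K →L[ℂ] K) (x' Ω)⟫_ℂ - FF Ω l m y X‖ < ε := by
  classical
  set c : ℝ := ‖x'‖ / (2 * √(l * m)) with hc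
  let S : Set (s → ℂ) := {w | ∃ X ∈ N, ‖X‖ ≤ c ∧
    ∀ y : s, w y = FF Ω l m ((y : N.toStarSubalgebra) : K →L[ℂ] K) X}
  let g : s → ℂ := fun y => ⟪Ω, ((y : N.toStarSubalgebra) : K →L[ℂ] K) (x' Ω)⟫_ℂ
  have hconv : Convex ℝ S := by
    rintro w ⟨X, hX, hXn, hXw⟩ w' ⟨X', hX', hXn', hXw'⟩ a b ha hb hab
    refine ⟨a • X + b • X', ?_, ?_, fun y => ?_⟩
    · refine N.toStarSubalgebra.add_mem ?_ ?_
      · have := N.toStarSubalgebra.smul_mem hX (a : ℂ)
        rwa [Complex.coe_smul] at this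
      · have := N.toStarSubalgebra.smul_mem hX' (b : ℂ)
        rwa [Complex.coe_smul] at this
    · refine (norm_add_le _ _).trans ?_
      rw [norm_smul, norm_smul, Real.norm_of_nonneg ha, Real.norm_of_nonneg hb]
      calc a * ‖X‖ + b * ‖X'‖ ≤ a * c + b * c :=
            add_le_add (mul_le_mul_of_nonneg_left hXn ha) (mul_le_mul_of_nonneg_left hXn' hb)
        _ = c := by rw [← add_mul, hab, one_mul]
    · rw [FF_conv, Pi.add_apply, Pi.smul_apply, Pi.smul_apply, hXw, hXw']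
  by_cases hg : g ∈ closure S
  · rw [Metric.mem_closure_iff] at hg
    obtain ⟨w, ⟨X, hX, hXn, hXw⟩, hd⟩ := hg ε hε
    refine ⟨X, hX, hXn, fun y hy => ?_⟩
    have h1 := (dist_pi_lt_iff hε).mp hd ⟨y, hy⟩
    rw [dist_eq_norm, hXw] at h1
    exact h1
  · exfalso
    obtain ⟨f, u, hf1, hf2⟩ :=
      RCLike.geometric_hahn_banach_closed_point (𝕜 := ℂ) hconv.closure isClosed_closure hg
    have hfe : ∀ w : s → ℂ, f w = ∑ i, f (fun j => if i = j then 1 else 0) * w i := by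
      intro w
      have := LinearMap.pi_apply_eq_sum_univ (f : (s → ℂ) →ₗ[ℂ] ℂ) w
      refine this.trans (sum_congr rfl fun i _ => ?_)
      rw [smul_eq_mul, mul_comm]
      rfl
    set cc : s → ℂ := fun i => f (fun j => if i = j then 1 else 0) with hcc
    have hy0 : (∑ i : s, cc i • (((i : N.toStarSubalgebra) : K →L[ℂ] K))) ∈ N := by
      refine sum_mem fun i _ => ?_
      exact N.toStarSubalgebra.smul_mem (i : N.toStarSubalgebra).2 _
    obtain ⟨X, hX, hXn, hXG⟩ := claim h N Ω x' hx' l m hl hm _ hy0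
    have hXF : (l : ℂ) * ⟪Ω, X ((∑ i : s, cc i • (((i : N.toStarSubalgebra) : K →L[ℂ] K))) Ω)⟫_ℂ +
        (m : ℂ) * ⟪Ω, (∑ i : s, cc i • (((i : N.toStarSubalgebra) : K →L[ℂ] K))) (X Ω)⟫_ℂ =
        f (fun y : s => FF Ω l m ((y : N.toStarSubalgebra) : K →L[ℂ] K) X) := by
      rw [hfe]
      exact FF_sum Ω l m cc (fun i : s => (((i : N.toStarSubalgebra) : K →L[ℂ] K))) X
    have hGG : ⟪Ω, (∑ i : s, cc i • (((i : N.toStarSubalgebra) : K →L[ℂ] K))) (x' Ω)⟫_ℂ = f g := by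
      rw [hfe]
      simp only [ContinuousLinearMap.sum_apply, ContinuousLinearMap.smul_apply,
        inner_sum, inner_smul_right]
      rfl
    rw [hXF, hGG] at hXG
    have h1 := hf1 _ (subset_closure ⟨X, hX, hXn, fun y => rfl⟩ :
      (fun y : s => FF Ω l m ((y : N.toStarSubalgebra) : K →L[ℂ] K) X) ∈ closure S)
    have h2 : (f g).re ≤ ‖f g‖ := Complex.re_le_norm _
    have h3 : u < (f g).re := hf2
    have h4 : (f (fun y : s => FF Ω l m ((y : N.toStarSubalgebra) : K →L[ℂ] K) X)).re < u := h1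
    linarith

end H97R2.BP.ZZ403

namespace H97R2.BP

open ZZ403

theorem bp_rnn (h : C_polar.{0}) (hu : Z_ulim) : Z_rnn := by
  intro K _ _ _ N Ω x' hx' l m hl hm
  classical
  set c : ℝ := ‖x'‖ / (2 * √(l * m)) with hc
  have happ : ∀ i : Finset N.toStarSubalgebra × ℕ, ∃ X ∈ N, ‖X‖ ≤ c ∧
      ∀ y ∈ i.1, ‖⟪Ω, (y : K →L[ℂ] K) (x' Ω)⟫_ℂ - FF Ω l m y X‖ < 1 / ((i.2 : ℝ) + 1) :=
    fun i => approx h N Ω x' hx' l m hl hm i.1 _ (by positivity)
  choose X hXN hXn hXy using happ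
  let U : Ultrafilter (Finset N.toStarSubalgebra × ℕ) := Ultrafilter.of Filter.atTop
  have hU : (U : Filter (Finset N.toStarSubalgebra × ℕ)) ≤ Filter.atTop := Ultrafilter.of_le _
  obtain ⟨S, hSn, hS⟩ := hu K _ U X c hXn
  refine ⟨S, ?_, hSn, fun y hy => ?_⟩
  · rw [← VonNeumannAlgebra.commutant_commutant N, VonNeumannAlgebra.mem_commutant_iff]
    intro z hz
    have hz2 := VonNeumannAlgebra.mem_commutant_iff.mp hz
    ext ξ
    refine ext_inner_left ℂ fun η => ?_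
    have h1 := hS (z ξ) η
    have h2 := hS ξ (star z η)
    have h3 : ∀ i, ⟪η, X i (z ξ)⟫_ℂ = ⟪star z η, X i ξ⟫_ℂ := by
      intro i
      rw [ip_star']
      congr 1
      exact congrArg (fun T : K →L[ℂ] K => T ξ) (hz2 (X i) (hXN i))
    simp only [h3] at h1
    have h4 := tendsto_nhds_unique h1 h2
    rw [ip_star'] at h4
    show ⟪η, z (S ξ)⟫_ℂ = ⟪η, S (z ξ)⟫_ℂ
    exact h4.symm
  · have h1 : Filter.Tendsto (fun i => FF Ω l m y (X i)) U (nhds (FF Ω l m y S)) := by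
      unfold FF
      refine ((hS (y Ω) Ω).const_mul _).add ?_
      have h2 := hS Ω (star y Ω)
      simp only [ip_star'] at h2
      exact h2.const_mul _
    have h2 : Filter.Tendsto (fun i => FF Ω l m y (X i)) U (nhds ⟪Ω, y (x' Ω)⟫_ℂ) := by
      rw [tendsto_iff_norm_sub_tendsto_zero]
      have h3 : Filter.Tendsto (fun i : Finset N.toStarSubalgebra × ℕ => 1 / ((i.2 : ℝ) + 1))
          U (nhds 0) := by
        have h4 : Filter.Tendsto (fun i : Finset N.toStarSubalgebra × ℕ => 1 / ((i.2 : ℝ) + 1))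
            Filter.atTop (nhds 0) := by
          have h5 : Filter.Tendsto (fun i : Finset N.toStarSubalgebra × ℕ => i.2)
              Filter.atTop Filter.atTop := by
            rw [← Filter.prod_atTop_atTop_eq]
            exact Filter.tendsto_snd
          exact tendsto_one_div_add_atTop_nhds_zero_nat.comp h5
        exact h4.mono_left hU
      refine squeeze_zero' (Filter.Eventually.of_forall fun i => norm_nonneg _) ?_ h3
      have h6 : ∀ᶠ i : Finset N.toStarSubalgebra × ℕ in Filter.atTop,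
          (⟨y, hy⟩ : N.toStarSubalgebra) ∈ i.1 := by
        filter_upwards [Filter.eventually_ge_atTop
          (({(⟨y, hy⟩ : N.toStarSubalgebra)}, 0) : Finset N.toStarSubalgebra × ℕ)] with i hi
        exact hi.1 (Finset.mem_singleton_self _)
      filter_upwards [hU h6] with i hi
      have h7 := hXy i _ hi
      rw [norm_sub_rev]
      exact h7.le
    have h3 := tendsto_nhds_unique h2 h1
    rw [h3]
    rfl

end H97R2.BP
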